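import Pool.Agent.H20.QL.Defs

/-!
# Project UQL, finite part, module T: balls, powers of the kernel, polynomials in the kernel
-/

set_option autoImplicit false
open Finset Matrix

namespace Pool.Agent.H27.QL

open Pool.Agent.H20.QL

section Nball

variable {V : Type} [DecidableEq V] (nb : V → Finset V)

theorem nball_comp (m n : ℕ) (x y z : V) (hy : y ∈ nball nb m x) (hz : z ∈ nball nb n y) :
    z ∈ nball nb (m + n) x := by
  induction n generalizing z with
  | zero =>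
    simp only [nball, mem_singleton] at hz
    subst hz
    exact hy
  | succ n ih =>
    simp only [nball, mem_biUnion] at hz
    obtain ⟨u, hu, hzu⟩ := hz
    have := ih u hu
    rw [← Nat.add_assoc]
    simp only [nball, mem_biUnion]
    exact ⟨u, this, hzu⟩

theorem nball_one (x : V) : nball nb 1 x = nb x := by
  simp [nball]

theorem nball_symm (hs : ∀ x y, y ∈ nb x → x ∈ nb y) (n : ℕ) (x y : V)
    (h : y ∈ nball nb n x) : x ∈ nball nb n y := by
  induction n generalizing y with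
  | zero =>
    simp only [nball, mem_singleton] at h ⊢
    exact h.symm
  | succ n ih =>
    simp only [nball, mem_biUnion] at h
    obtain ⟨u, hu, hyu⟩ := h
    rw [Nat.add_comm n 1]
    refine nball_comp nb 1 n y u x ?_ (ih u hu)
    rw [nball_one]
    exact hs u y hyu

theorem nball_card (Δ : ℕ) (hd : ∀ x, (nb x).card ≤ Δ) (n : ℕ) (x : V) :
    (nball nb n x).card ≤ Δ ^ n := by
  induction n with
  | zero => simp [nball]
  | succ n ih =>
    simp only [nball]
    refine (card_biUnion_le_card_mul _ _ Δ fun y _ => hd y).trans ?_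
    rw [pow_succ]
    exact Nat.mul_le_mul_right _ ih

theorem nball_mono (hr : ∀ x, x ∈ nb x) (m n : ℕ) (x : V) (hmn : m ≤ n) :
    nball nb m x ⊆ nball nb n x := by
  induction n, hmn using Nat.le_induction with
  | base => exact le_refl _
  | succ n _ ih =>
    intro y hy
    simp only [nball, mem_biUnion]
    exact ⟨y, ih hy, hr y⟩

end Nball

theorem nballStmt : NballStmt := by
  intro V _ nb
  exact ⟨fun hs n x y h => nball_symm nb hs n x y h, fun Δ hd n x => nball_card nb Δ hd n x,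
    fun m n x y z hy hz => nball_comp nb m n x y z hy hz,
    fun hr m n x hmn => nball_mono nb hr m n x hmn⟩

section Form

variable {V : Type} [Fintype V]

theorem symm_dot {T : Matrix V V ℝ} (hT : T.IsSymm) (u v : V → ℝ) :
    u ⬝ᵥ (T *ᵥ v) = (T *ᵥ u) ⬝ᵥ v := by
  rw [Matrix.dotProduct_mulVec, ← Matrix.mulVec_transpose, hT.eq]

theorem dot_self_nonneg (u : V → ℝ) : 0 ≤ u ⬝ᵥ u := by
  unfold dotProduct
  exact Finset.sum_nonneg fun i _ => mul_self_nonneg _

/-- `|T w|² ≤ ⟨T w, w⟩` for `0 ≤ T ≤ 1` -/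
theorem sq_le_form {T : Matrix V V ℝ} (hT : T.IsSymm) (h0 : ∀ u : V → ℝ, 0 ≤ u ⬝ᵥ (T *ᵥ u))
    (h1 : ∀ u : V → ℝ, u ⬝ᵥ (T *ᵥ u) ≤ u ⬝ᵥ u) (w : V → ℝ) :
    (T *ᵥ w) ⬝ᵥ (T *ᵥ w) ≤ w ⬝ᵥ (T *ᵥ w) := by
  have h2 := h0 (w - T *ᵥ w)
  have h3 := h1 (T *ᵥ w)
  rw [Matrix.mulVec_sub, sub_dotProduct, dotProduct_sub, dotProduct_sub] at h2
  have h4 : w ⬝ᵥ (T *ᵥ (T *ᵥ w)) = (T *ᵥ w) ⬝ᵥ (T *ᵥ w) := symm_dot hT _ _
  rw [h4] at h2
  linarith

theorem cauchy (u v : V → ℝ) : (u ⬝ᵥ v) ^ 2 ≤ (u ⬝ᵥ u) * (v ⬝ᵥ v) := by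
  unfold dotProduct
  have := Finset.sum_mul_sq_le_sq_mul_sq Finset.univ u v
  simpa only [pow_two] using this

end Form

section Powers

variable {V : Type} [Fintype V] [DecidableEq V] {nb : V → Finset V} {Δ D : ℕ} {lam : ℝ}
  {T : Matrix V V ℝ}

theorem pow_supp (hK : Kernel nb Δ D lam T) (r : ℕ) (x y : V) (h : (T ^ r) x y ≠ 0) :
    y ∈ nball nb r x := by
  induction r generalizing y with
  | zero =>
    rw [pow_zero, Matrix.one_apply] at h
    simp only [nball, mem_singleton]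
    by_contra hne
    exact h (if_neg fun e => hne e.symm)
  | succ r ih =>
    rw [pow_succ, Matrix.mul_apply] at h
    obtain ⟨z, _, hz⟩ := Finset.exists_ne_zero_of_sum_ne_zero h
    simp only [nball, mem_biUnion]
    exact ⟨z, ih z (left_ne_zero_of_mul hz), hK.supp z y (right_ne_zero_of_mul hz)⟩

omit [Fintype V] in
theorem nset_mono (hr : ∀ x, x ∈ nb x) {m n : ℕ} (h : m ≤ n) (Z : Finset V) :
    nset nb m Z ⊆ nset nb n Z := by
  intro y hy
  simp only [nset, mem_biUnion] at hy ⊢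
  obtain ⟨z, hz, hyz⟩ := hy
  exact ⟨z, hz, nball_mono nb hr m n z h hyz⟩

theorem pow_mulVec_supp (hK : Kernel nb Δ D lam T) (Z : Finset V) (u : V → ℝ)
    (hu : ∀ y, y ∉ Z → u y = 0) (i : ℕ) (y : V) (hy : y ∉ nset nb i Z) :
    ((T ^ i) *ᵥ u) y = 0 := by
  unfold Matrix.mulVec dotProduct
  refine Finset.sum_eq_zero fun z _ => ?_
  by_contra hne
  have h1 := pow_supp hK i y z (left_ne_zero_of_mul hne)
  have h2 : z ∈ Z := by
    by_contra hz
    exact right_ne_zero_of_mul hne (hu z hz)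
  refine hy ?_
  simp only [nset, mem_biUnion]
  exact ⟨z, h2, nball_symm nb hK.symm i y z h1⟩

theorem pow_contr (hK : Kernel nb Δ D lam T) (hl : 0 ≤ lam) (r : ℕ) (Z : Finset V) (x : V)
    (hZ : nset nb r Z ⊆ nball nb D x) (u : V → ℝ) (hu : ∀ y, y ∉ Z → u y = 0) (i : ℕ)
    (hi : i ≤ r) : ((T ^ i) *ᵥ u) ⬝ᵥ ((T ^ i) *ᵥ u) ≤ lam ^ i * (u ⬝ᵥ u) := by
  induction i with
  | zero => simp
  | succ i ih =>
    have ih' := ih (by omega)
    have e : (T ^ (i + 1)) *ᵥ u = T *ᵥ ((T ^ i) *ᵥ u) := by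
      rw [pow_succ', Matrix.mulVec_mulVec]
    rw [e]
    have h1 := sq_le_form hK.tsymm hK.nonneg hK.le_one ((T ^ i) *ᵥ u)
    have h2 := hK.contr x ((T ^ i) *ᵥ u) (fun y hy => by
      refine pow_mulVec_supp hK Z u hu i y fun hy' => hy (hZ ?_)
      exact nset_mono hK.refl (by omega) Z hy')
    calc _ ≤ _ := h1
      _ ≤ lam * (((T ^ i) *ᵥ u) ⬝ᵥ ((T ^ i) *ᵥ u)) := h2
      _ ≤ lam * (lam ^ i * (u ⬝ᵥ u)) := mul_le_mul_of_nonneg_left ih' hl
      _ = lam ^ (i + 1) * (u ⬝ᵥ u) := by ring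

theorem pow_symm (hT : T.IsSymm) (r : ℕ) : (T ^ r).IsSymm := by
  unfold Matrix.IsSymm
  rw [Matrix.transpose_pow, hT.eq]

theorem mass_small_scalar (hK : Kernel nb Δ D lam T) (hl : 0 ≤ lam) (r : ℕ) (Z : Finset V) (x : V)
    (hZ : nset nb r Z ⊆ nball nb D x) (v : V → ℝ) :
    ∑ z ∈ Z, ((T ^ r) *ᵥ v) z ^ 2 ≤ lam ^ r * ∑ y ∈ nset nb r Z, v y ^ 2 := by
  set v' : V → ℝ := fun y => if y ∈ nset nb r Z then v y else 0 with hv'
  have e1 : ∀ z ∈ Z, ((T ^ r) *ᵥ v) z = ((T ^ r) *ᵥ v') z := by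
    intro z hz
    unfold Matrix.mulVec dotProduct
    refine Finset.sum_congr rfl fun y _ => ?_
    change (T ^ r) z y * v y = (T ^ r) z y * v' y
    by_cases hy : (T ^ r) z y = 0
    · rw [hy, zero_mul, zero_mul]
    · have h1 : y ∈ nset nb r Z := by
        simp only [nset, mem_biUnion]
        exact ⟨z, hz, pow_supp hK r z y hy⟩
      rw [hv']
      simp only [if_pos h1]
  set u : V → ℝ := fun z => if z ∈ Z then ((T ^ r) *ᵥ v') z else 0 with hu
  have e2 : ∑ z ∈ Z, ((T ^ r) *ᵥ v) z ^ 2 = u ⬝ᵥ u := by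
    unfold dotProduct
    rw [← Finset.sum_filter_add_sum_filter_not univ (fun z => z ∈ Z) (fun z => u z * u z)]
    have e3 : ∑ z ∈ univ.filter (fun z => ¬ z ∈ Z), u z * u z = 0 := by
      refine Finset.sum_eq_zero fun z hz => ?_
      rw [mem_filter] at hz
      rw [hu]
      simp only [if_neg hz.2, mul_zero]
    rw [e3, add_zero]
    have e4 : univ.filter (fun z => z ∈ Z) = Z := by
      ext z
      simp
    rw [e4]
    refine Finset.sum_congr rfl fun z hz => ?_
    rw [e1 z hz, hu]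
    simp only [if_pos hz]
    ring
  have e5 : u ⬝ᵥ u = u ⬝ᵥ ((T ^ r) *ᵥ v') := by
    unfold dotProduct
    refine Finset.sum_congr rfl fun z _ => ?_
    by_cases hz : z ∈ Z
    · rw [hu]
      simp only [if_pos hz]
    · have : u z = 0 := by
        rw [hu]
        simp only [if_neg hz]
      rw [this, zero_mul, zero_mul]
  have e6 : ∑ y ∈ nset nb r Z, v y ^ 2 = v' ⬝ᵥ v' := by
    unfold dotProduct
    rw [← Finset.sum_filter_add_sum_filter_not univ (fun z => z ∈ nset nb r Z)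
      (fun z => v' z * v' z)]
    have e3 : ∑ z ∈ univ.filter (fun z => ¬ z ∈ nset nb r Z), v' z * v' z = 0 := by
      refine Finset.sum_eq_zero fun z hz => ?_
      rw [mem_filter] at hz
      rw [hv']
      simp only [if_neg hz.2, mul_zero]
    rw [e3, add_zero]
    have e4 : univ.filter (fun z => z ∈ nset nb r Z) = nset nb r Z := by
      ext z
      simp
    rw [e4]
    refine Finset.sum_congr rfl fun z hz => ?_
    rw [hv']
    simp only [if_pos hz]
    ring
  rw [e2, e6]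
  have h1 : u ⬝ᵥ u = ((T ^ r) *ᵥ u) ⬝ᵥ v' := by
    rw [e5, symm_dot (pow_symm hK.tsymm r)]
  have h2 := cauchy ((T ^ r) *ᵥ u) v'
  have h3 := pow_contr hK hl r Z x hZ u (fun y hy => by
    rw [hu]
    simp only [if_neg hy]) r le_rfl
  rw [← h1] at h2
  have h4 := dot_self_nonneg u
  have h5 := dot_self_nonneg v'
  by_cases h6 : u ⬝ᵥ u = 0
  · rw [h6]
    positivity
  · have h7 : 0 < u ⬝ᵥ u := lt_of_le_of_ne h4 (Ne.symm h6)
    have h8 : (u ⬝ᵥ u) * (u ⬝ᵥ u) ≤ (u ⬝ᵥ u) * (lam ^ r * (v' ⬝ᵥ v')) := by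
      calc (u ⬝ᵥ u) * (u ⬝ᵥ u) = (u ⬝ᵥ u) ^ 2 := by ring
        _ ≤ _ := h2
        _ ≤ (lam ^ r * (u ⬝ᵥ u)) * (v' ⬝ᵥ v') := mul_le_mul_of_nonneg_right h3 h5
        _ = _ := by ring
    exact le_of_mul_le_mul_left h8 h7

end Powers

theorem powersStmt : PowersStmt := by
  intro V _ _ nb Δ D lam T hK hl
  refine ⟨fun r x y h => pow_supp hK r x y h, ?_, ?_⟩
  · intro r Z x hZ k c
    simp only [Pool.Agent.H20.QL.sq]
    rw [Finset.sum_comm, Finset.sum_comm (s := nset nb r Z), Finset.mul_sum]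
    exact Finset.sum_le_sum fun i _ => mass_small_scalar hK hl r Z x hZ (c i)
  · intro j hj x
    have h1 := pow_contr hK hl j {x} x (by
      intro y hy
      simp only [nset, singleton_biUnion] at hy
      exact nball_mono nb hK.refl j D x hj hy) (Pi.single x 1) (fun y hy => by
        rw [mem_singleton] at hy
        exact Pi.single_eq_of_ne hy _) j le_rfl
    rw [← symm_dot (pow_symm hK.tsymm j), Matrix.mulVec_mulVec, ← pow_add] at h1
    have e : j + j = 2 * j := by ring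
    rw [e] at h1
    simpa using h1

section PolyBound

variable {V : Type} [Fintype V] [DecidableEq V]

theorem aeval_symm {T : Matrix V V ℝ} (hT : T.IsSymm) (p : Polynomial ℝ) :
    (Polynomial.aeval T p).IsSymm := by
  induction p using Polynomial.induction_on' with
  | add p q hp hq =>
    rw [map_add]
    exact hp.add hq
  | monomial n a =>
    rw [Polynomial.aeval_monomial, ← Algebra.smul_def]
    exact (pow_symm hT n).smul a

theorem aeval_eigen {T : Matrix V V ℝ} {w : V → ℝ} {μ : ℝ} (h : T *ᵥ w = μ • w)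
    (p : Polynomial ℝ) : (Polynomial.aeval T p) *ᵥ w = p.eval μ • w := by
  have hpow : ∀ n : ℕ, (T ^ n) *ᵥ w = μ ^ n • w := by
    intro n
    induction n with
    | zero => simp
    | succ n ih =>
      rw [pow_succ', ← Matrix.mulVec_mulVec, ih, Matrix.mulVec_smul, h, smul_smul, pow_succ]
  induction p using Polynomial.induction_on' with
  | add p q hp hq =>
    rw [map_add, Matrix.add_mulVec, hp, hq, Polynomial.eval_add, add_smul]
  | monomial n a =>
    rw [Polynomial.aeval_monomial, ← Algebra.smul_def, Matrix.smul_mulVec, hpow, smul_smul,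
      Polynomial.eval_monomial]

theorem polyBoundStmt : PolyBoundStmt := by
  intro V _ _ T hT h0 h1 p C hC u
  have hA : T.IsHermitian := by
    unfold Matrix.IsHermitian
    rw [Matrix.conjTranspose_eq_transpose_of_trivial]
    exact hT
  set b := hA.eigenvectorBasis with hb
  have hdot : ∀ v : V → ℝ, ∑ i, (v ⬝ᵥ (b i).ofLp) ^ 2 = v ⬝ᵥ v := by
    intro v
    have h := b.sum_sq_norm_inner_right (WithLp.toLp 2 v)
    rw [EuclideanSpace.norm_sq_eq] at h
    have e1 : ∑ i, ‖(WithLp.toLp 2 v : EuclideanSpace ℝ V) i‖ ^ 2 = v ⬝ᵥ v := by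
      unfold dotProduct
      refine Finset.sum_congr rfl fun i _ => ?_
      rw [Real.norm_eq_abs, sq_abs]
      change v i ^ 2 = v i * v i
      ring
    rw [e1] at h
    rw [← h]
    refine Finset.sum_congr rfl fun i _ => ?_
    rw [EuclideanSpace.inner_eq_star_dotProduct, Real.norm_eq_abs, sq_abs]
    simp
  have heig : ∀ i, T *ᵥ (b i).ofLp = hA.eigenvalues i • (b i).ofLp := fun i =>
    hA.mulVec_eigenvectorBasis i
  have hone : ∀ i, (b i).ofLp ⬝ᵥ (b i).ofLp = 1 := by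
    intro i
    have h2 : ‖b i‖ ^ 2 = 1 := by
      rw [b.orthonormal.1 i]
      norm_num
    rw [EuclideanSpace.norm_sq_eq] at h2
    rw [← h2]
    unfold dotProduct
    refine Finset.sum_congr rfl fun j _ => ?_
    rw [Real.norm_eq_abs, sq_abs]
    ring
  have hmem : ∀ i, hA.eigenvalues i ∈ Set.Icc (0 : ℝ) 1 := by
    intro i
    have h2 := h0 (b i).ofLp
    have h3 := h1 (b i).ofLp
    rw [heig i, dotProduct_smul, hone i, smul_eq_mul, mul_one] at h2 h3
    exact ⟨h2, h3⟩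
  rw [← hdot ((Polynomial.aeval T p) *ᵥ u), ← hdot u, Finset.mul_sum]
  refine Finset.sum_le_sum fun i _ => ?_
  have h4 : ((Polynomial.aeval T p) *ᵥ u) ⬝ᵥ (b i).ofLp =
      p.eval (hA.eigenvalues i) * (u ⬝ᵥ (b i).ofLp) := by
    rw [← symm_dot (aeval_symm hT p), aeval_eigen (heig i), dotProduct_smul, smul_eq_mul]
  rw [h4, mul_pow]
  refine mul_le_mul_of_nonneg_right ?_ (sq_nonneg _)
  have h5 := hC _ (hmem i)
  rw [← sq_abs]
  exact pow_le_pow_left₀ (abs_nonneg _) h5 2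

end PolyBound

end Pool.Agent.H27.QL
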