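import Pool.Agent.H20.QL.Defs
import Pool.Agent.H27.QL.POWERS

/-!
# Project UQL, finite part, module G: summation over the levels, the exceptional set
-/

set_option autoImplicit false
open Finset Matrix

namespace Pool.Agent.H27.QL

open Pool.Agent.H20.QL

theorem zpow_two_pos (i : ℤ) : (0 : ℝ) < (2 : ℝ) ^ i := zpow_pos (by norm_num) i

theorem card_le_of_spread (I : Finset ℤ) (m : ℕ) (h : ∀ i ∈ I, ∀ i' ∈ I, i ≤ i' + 2 * m) :
    I.card ≤ 2 * m + 1 := by
  rcases I.eq_empty_or_nonempty with rfl | hne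
  · simp
  · have hmem := I.min'_mem hne
    have hsub : I ⊆ Finset.Icc (I.min' hne) (I.min' hne + 2 * m) := by
      intro i hi
      rw [mem_Icc]
      exact ⟨I.min'_le i hi, h i hi _ hmem⟩
    refine (card_le_card hsub).trans ?_
    rw [Int.card_Icc]
    omega

theorem nset_card {V : Type} [DecidableEq V] (nb : V → Finset V) (Δ : ℕ)
    (hd : ∀ x, (nb x).card ≤ Δ) (r : ℕ) (Z : Finset V) :
    (nset nb r Z).card ≤ Z.card * Δ ^ r := by
  unfold nset
  exact card_biUnion_le_card_mul _ _ _ fun y _ => nball_card nb Δ hd r y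

theorem summationStmt : SummationStmt := by
  classical
  intro V _ _ nb Δ hs hd r m f g hf hg κ hκ hκm fam h1 h2 h3 h4
  have key : ∀ p ∈ fam, ∑ x ∈ p.2, f x ≤
      2 * κ * ∑ y ∈ (nset nb r p.2).filter (fun y => (2 : ℝ) ^ (p.1 - m : ℤ) ≤ g y), g y := by
    intro p hp
    have h5 := h4 p hp
    rw [← Finset.sum_filter_add_sum_filter_not (nset nb r p.2)
      (fun y => (2 : ℝ) ^ (p.1 - m : ℤ) ≤ g y)] at h5
    have h6 : ∑ y ∈ (nset nb r p.2).filter (fun y => ¬ (2 : ℝ) ^ (p.1 - m : ℤ) ≤ g y), g y ≤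
        (p.2.card * (Δ : ℝ) ^ r) * (2 : ℝ) ^ (p.1 - m : ℤ) := by
      have h7 : ∑ y ∈ (nset nb r p.2).filter (fun y => ¬ (2 : ℝ) ^ (p.1 - m : ℤ) ≤ g y), g y ≤
          ∑ y ∈ (nset nb r p.2).filter (fun y => ¬ (2 : ℝ) ^ (p.1 - m : ℤ) ≤ g y),
            (2 : ℝ) ^ (p.1 - m : ℤ) := by
        refine Finset.sum_le_sum fun y hy => ?_
        rw [mem_filter] at hy
        exact (not_le.1 hy.2).le
      refine h7.trans ?_
      rw [Finset.sum_const, nsmul_eq_mul]
      refine mul_le_mul_of_nonneg_right ?_ (zpow_two_pos _).le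
      have h8 := (card_le_card (Finset.filter_subset (fun y => ¬ (2 : ℝ) ^ (p.1 - m : ℤ) ≤ g y)
        (nset nb r p.2))).trans (nset_card nb Δ hd r p.2)
      exact_mod_cast h8
    have h9 : (p.2.card : ℝ) * (2 : ℝ) ^ p.1 ≤ ∑ x ∈ p.2, f x := by
      calc (p.2.card : ℝ) * (2 : ℝ) ^ p.1 = ∑ x ∈ p.2, (2 : ℝ) ^ p.1 := by
            rw [Finset.sum_const, nsmul_eq_mul]
        _ ≤ _ := Finset.sum_le_sum fun x hx => (h1 p hp x hx).1
    have h10 : κ * ((p.2.card * (Δ : ℝ) ^ r) * (2 : ℝ) ^ (p.1 - m : ℤ)) ≤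
        1 / 2 * ∑ x ∈ p.2, f x := by
      rw [zpow_sub₀ (by norm_num), zpow_natCast]
      have e : κ * ((p.2.card * (Δ : ℝ) ^ r) * ((2 : ℝ) ^ p.1 / 2 ^ m)) =
          1 / 2 * ((2 * κ * (Δ : ℝ) ^ r) / 2 ^ m * (p.2.card * (2 : ℝ) ^ p.1)) := by ring
      rw [e]
      refine mul_le_mul_of_nonneg_left ?_ (by norm_num)
      have h11 : (2 * κ * (Δ : ℝ) ^ r) / 2 ^ m ≤ 1 := by
        rw [div_le_one (by positivity)]
        exact hκm
      calc (2 * κ * (Δ : ℝ) ^ r) / 2 ^ m * (p.2.card * (2 : ℝ) ^ p.1)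
          ≤ 1 * (p.2.card * (2 : ℝ) ^ p.1) :=
            mul_le_mul_of_nonneg_right h11 (mul_nonneg (Nat.cast_nonneg _) (zpow_two_pos _).le)
        _ ≤ _ := by rw [one_mul]; exact h9
    have h12 := mul_le_mul_of_nonneg_left h6 hκ
    rw [mul_add] at h5
    linarith
  have hcount : ∀ y : V, (((fam.filter (fun p => y ∈ nset nb r p.2 ∧
      (2 : ℝ) ^ (p.1 - m : ℤ) ≤ g y)).card : ℕ) : ℝ) ≤ 2 * m + 2 := by
    intro y
    set S := fam.filter (fun p => y ∈ nset nb r p.2 ∧ (2 : ℝ) ^ (p.1 - m : ℤ) ≤ g y) with hS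
    have hinj : Set.InjOn (fun p : ℤ × Finset V => p.1) S := by
      intro p hp q hq hpq
      rw [hS, Finset.mem_coe, mem_filter] at hp hq
      by_contra hne
      have := h3 p hp.1 q hq.1 hne hpq
      exact Finset.disjoint_left.1 this hp.2.1 hq.2.1
    rw [← Finset.card_image_of_injOn hinj]
    have hcard : (S.image (fun p : ℤ × Finset V => p.1)).card ≤ 2 * m + 1 := by
      refine card_le_of_spread _ m ?_
      intro i hi i' hi'
      rw [mem_image] at hi hi'
      obtain ⟨p, hp, rfl⟩ := hi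
      obtain ⟨q, hq, rfl⟩ := hi'
      rw [hS, mem_filter] at hp hq
      obtain ⟨_, _, hp2⟩ := hp
      obtain ⟨hq0, hq1, _⟩ := hq
      unfold nset at hq1
      rw [mem_biUnion] at hq1
      obtain ⟨x, hx, hyx⟩ := hq1
      have h5 := h2 q hq0 x hx y hyx
      have h6 := (h1 q hq0 x hx).2
      have h7 : g y < 2 ^ m * (2 : ℝ) ^ (q.1 + 1) :=
        lt_of_le_of_lt h5 (mul_lt_mul_of_pos_left h6 (by positivity))
      have h8 : (2 : ℝ) ^ (p.1 - m : ℤ) < (2 : ℝ) ^ (m + (q.1 + 1) : ℤ) := by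
        rw [zpow_add₀ (by norm_num : (2 : ℝ) ≠ 0) (m : ℤ) (q.1 + 1), zpow_natCast]
        exact lt_of_le_of_lt hp2 h7
      have h9 : p.1 - m < m + (q.1 + 1) := (zpow_lt_zpow_iff_right₀ (by norm_num)).1 h8
      omega
    have : ((S.image (fun p : ℤ × Finset V => p.1)).card : ℝ) ≤ 2 * m + 1 := by
      exact_mod_cast hcard
    linarith
  calc ∑ p ∈ fam, ∑ x ∈ p.2, f x
      ≤ ∑ p ∈ fam, 2 * κ * ∑ y ∈ (nset nb r p.2).filter
          (fun y => (2 : ℝ) ^ (p.1 - m : ℤ) ≤ g y), g y := Finset.sum_le_sum key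
    _ = 2 * κ * ∑ p ∈ fam, ∑ y : V, (if y ∈ nset nb r p.2 ∧ (2 : ℝ) ^ (p.1 - m : ℤ) ≤ g y
          then g y else 0) := by
        rw [← Finset.mul_sum]
        congr 1
        refine Finset.sum_congr rfl fun p _ => ?_
        rw [← Finset.sum_filter]
        congr 1
        ext y
        simp only [mem_filter, mem_univ, true_and]
    _ = 2 * κ * ∑ y : V, ∑ p ∈ fam, (if y ∈ nset nb r p.2 ∧ (2 : ℝ) ^ (p.1 - m : ℤ) ≤ g y
          then g y else 0) := by rw [Finset.sum_comm]
    _ ≤ 2 * κ * ∑ y : V, (2 * m + 2) * g y := by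
        refine mul_le_mul_of_nonneg_left ?_ (by positivity)
        refine Finset.sum_le_sum fun y _ => ?_
        rw [← Finset.sum_filter, Finset.sum_const, nsmul_eq_mul]
        exact mul_le_mul_of_nonneg_right (hcount y) (hg y)
    _ = 2 * κ * (2 * m + 2) * ∑ y, g y := by
        rw [← Finset.mul_sum]
        ring

theorem exceptionalStmt : ExceptionalStmt := by
  classical
  intro V _ _ nb Δ hs hd r f g hf hg K hK
  calc ∑ x ∈ univ.filter (fun x => ∃ y ∈ nball nb r x, K * f x < g y), f x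
      ≤ ∑ x ∈ univ.filter (fun x => ∃ y ∈ nball nb r x, K * f x < g y),
          ∑ y ∈ nball nb r x, g y / K := by
        refine Finset.sum_le_sum fun x hx => ?_
        rw [mem_filter] at hx
        obtain ⟨_, y, hy, hyx⟩ := hx
        have h1 : f x ≤ g y / K := by
          rw [le_div_iff₀ hK, mul_comm]
          exact hyx.le
        exact h1.trans (Finset.single_le_sum (f := fun y => g y / K)
          (fun z _ => div_nonneg (hg z) hK.le) hy)
    _ ≤ ∑ x : V, ∑ y ∈ nball nb r x, g y / K := by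
        refine Finset.sum_le_sum_of_subset_of_nonneg (Finset.filter_subset _ _) fun x _ _ => ?_
        exact Finset.sum_nonneg fun z _ => div_nonneg (hg z) hK.le
    _ = ∑ x : V, ∑ y : V, (if y ∈ nball nb r x then g y / K else 0) := by
        refine Finset.sum_congr rfl fun x _ => ?_
        rw [← Finset.sum_filter]
        congr 1
        ext y
        simp only [mem_filter, mem_univ, true_and]
    _ = ∑ y : V, ∑ x : V, (if y ∈ nball nb r x then g y / K else 0) := Finset.sum_comm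
    _ ≤ ∑ y : V, (Δ : ℝ) ^ r / K * g y := by
        refine Finset.sum_le_sum fun y _ => ?_
        rw [← Finset.sum_filter, Finset.sum_const, nsmul_eq_mul]
        have h2 : (univ.filter (fun x => y ∈ nball nb r x)).card ≤ Δ ^ r := by
          refine (card_le_card ?_).trans (nball_card nb Δ hd r y)
          intro x hx
          rw [mem_filter] at hx
          exact nball_symm nb hs r x y hx.2
        have h3 : ((univ.filter (fun x => y ∈ nball nb r x)).card : ℝ) ≤ (Δ : ℝ) ^ r := by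
          exact_mod_cast h2
        calc ((univ.filter (fun x => y ∈ nball nb r x)).card : ℝ) * (g y / K)
            ≤ (Δ : ℝ) ^ r * (g y / K) :=
              mul_le_mul_of_nonneg_right h3 (div_nonneg (hg y) hK.le)
          _ = _ := by ring
    _ = (Δ : ℝ) ^ r / K * ∑ y, g y := by rw [← Finset.mul_sum]

end Pool.Agent.H27.QL
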